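import Mathlib

/-! Algebra of the truncated products `∏ (1 + ω_i T)`. -/

namespace Pool.Agent.Helper34_Sidon

open Finset Polynomial

variable {ι F : Type*} [DecidableEq ι] [Field F]

/-- the product `∏_{i ∈ S} (1 + ω_i T)` -/
noncomputable def prodP (ω : ι → F) (S : Finset ι) : F[X] := ∏ i ∈ S, (1 + C (ω i) * X)

/-- the coefficient of `T^2` -/
noncomputable def qf (ω : ι → F) (S : Finset ι) : F := (prodP ω S).coeff 2

/-- the sum of `ω` over `S` -/
def lin (ω : ι → F) (S : Finset ι) : F := ∑ i ∈ S, ω i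

theorem coeff_zero_prodP (ω : ι → F) (S : Finset ι) : (prodP ω S).coeff 0 = 1 := by
  unfold prodP
  induction S using Finset.induction_on with
  | empty => simp
  | insert a s ha ih => rw [Finset.prod_insert ha, mul_coeff_zero, ih]; simp

theorem coeff_one_prodP (ω : ι → F) (S : Finset ι) : (prodP ω S).coeff 1 = lin ω S := by
  unfold lin
  induction S using Finset.induction_on with
  | empty => simp [prodP, coeff_one]
  | insert a s ha ih =>
    have h1 : prodP ω (insert a s) = (1 + C (ω a) * X) * prodP ω s := by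
      unfold prodP; rw [Finset.prod_insert ha]
    rw [h1, Finset.sum_insert ha, add_mul, one_mul, coeff_add, ih, mul_assoc, coeff_C_mul,
      coeff_X_mul, coeff_zero_prodP, mul_one, add_comm]

theorem coeff_two_mul (P Q : F[X]) :
    (P * Q).coeff 2 = P.coeff 0 * Q.coeff 2 + P.coeff 1 * Q.coeff 1 + P.coeff 2 * Q.coeff 0 := by
  rw [coeff_mul, Finset.Nat.sum_antidiagonal_eq_sum_range_succ_mk]
  simp [Finset.sum_range_succ]

theorem qf_identity (ω : ι → F) {S1 S2 S3 S4 : Finset ι} (hu : S1 ∪ S2 = S3 ∪ S4)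
    (hi : S1 ∩ S2 = S3 ∩ S4) :
    qf ω S1 + qf ω S2 + lin ω S1 * lin ω S2 = qf ω S3 + qf ω S4 + lin ω S3 * lin ω S4 := by
  have h : prodP ω S1 * prodP ω S2 = prodP ω S3 * prodP ω S4 := by
    unfold prodP
    rw [← Finset.prod_union_inter, hu, hi, Finset.prod_union_inter]
  have h2 := congrArg (fun P => P.coeff 2) h
  simp only [coeff_two_mul, coeff_zero_prodP, coeff_one_prodP, one_mul, mul_one] at h2
  unfold qf
  linear_combination h2

theorem lin_identity (ω : ι → F) {S1 S2 S3 S4 : Finset ι} (hu : S1 ∪ S2 = S3 ∪ S4)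
    (hi : S1 ∩ S2 = S3 ∩ S4) : lin ω S1 + lin ω S2 = lin ω S3 + lin ω S4 := by
  unfold lin
  rw [← Finset.sum_union_inter, hu, hi, Finset.sum_union_inter]

/-- if the integer sums agree and the second components agree then the pairs of linear parts
agree -/
theorem lin_pair (ω p : ι → F) {S1 S2 S3 S4 : Finset ι} (hu : S1 ∪ S2 = S3 ∪ S4)
    (hi : S1 ∩ S2 = S3 ∩ S4)
    (hq : (qf ω S1 + lin p S1) + (qf ω S2 + lin p S2) = (qf ω S3 + lin p S3) + (qf ω S4 + lin p S4)) :
    (lin ω S1 = lin ω S3 ∧ lin ω S2 = lin ω S4) ∨ (lin ω S1 = lin ω S4 ∧ lin ω S2 = lin ω S3) := by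
  have h1 := qf_identity ω hu hi
  have h2 := lin_identity ω hu hi
  have h3 := lin_identity p hu hi
  have h4 : lin ω S1 * lin ω S2 = lin ω S3 * lin ω S4 := by linear_combination h1 - hq + h3
  have h5 : (lin ω S1 - lin ω S3) * (lin ω S1 - lin ω S4) = 0 := by
    linear_combination (lin ω S1) * h2 - h4
  rcases mul_eq_zero.mp h5 with h | h
  · left
    have h6 := sub_eq_zero.mp h
    exact ⟨h6, by linear_combination h2 - h6⟩
  · right
    have h6 := sub_eq_zero.mp h
    exact ⟨h6, by linear_combination h2 - h6⟩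

/-- in characteristic two, the sum over a symmetric difference -/
theorem lin_symmDiff [CharP F 2] (ω : ι → F) (S T : Finset ι) :
    lin ω (symmDiff S T) = lin ω S + lin ω T := by
  unfold lin
  have h : symmDiff S T = (S ∪ T) \ (S ∩ T) := by
    ext i; simp only [Finset.mem_symmDiff, Finset.mem_sdiff, Finset.mem_union, Finset.mem_inter]
    tauto
  have hsub : S ∩ T ⊆ S ∪ T := fun i hi => by
    simp only [Finset.mem_union, Finset.mem_inter] at *; tauto
  have h1 := Finset.sum_sdiff (f := ω) hsub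
  have h2 := Finset.sum_union_inter (s₁ := S) (s₂ := T) (f := ω)
  rw [h]
  have h3 : ∀ x : F, x + x = 0 := fun x => CharTwo.add_self_eq_zero x
  have h4 := h3 (∑ i ∈ S ∩ T, ω i)
  linear_combination h1 + h2 - h4

end Pool.Agent.Helper34_Sidon
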