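import Pool.Agent.Helper34_Sidon.Tail

/-! The final asymptotic statement. -/

namespace Pool.Agent.Helper34_Sidon

open Finset Filter

/-- The construction for a given `n` and `c`. -/
theorem for_n (n m c : ℕ) (hn : n = 2 * m + c) (hc : 1 ≤ c) (hlog : 1 ≤ Real.log n)
    (hK : (36:ℝ) * (2 ^ c) ^ 2 * Real.log n ≤ n) (hm3 : n ≤ 3 * m) :
    ∃ A : Finset (Fin n → ℤ), (∀ x ∈ A, ∀ i, x i = 0 ∨ x i = 1) ∧
      (∀ x ∈ A, ∀ y ∈ A, ∀ z ∈ A, ∀ w ∈ A, x + y = z + w → (x = z ∧ y = w) ∨ (x = w ∧ y = z)) ∧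
      2 ^ (m + c) ≤ 2 * A.card := by
  subst hn
  set N : ℕ := 2 * m + c with hN
  have hNpos : (0:ℝ) < N := by
    rcases Nat.eq_zero_or_pos N with h | h
    · rw [h] at hlog; simp at hlog; linarith
    · exact_mod_cast h
  have hm0 : m ≠ 0 := by
    intro h
    have : N ≤ 0 := by omega
    have : (N:ℝ) ≤ 0 := by exact_mod_cast this
    linarith
  have hmpos : (0:ℝ) < m := by exact_mod_cast Nat.pos_of_ne_zero hm0
  set K : ℕ := 2 ^ c with hKd
  have hK2 : 2 ≤ K := by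
    calc 2 = 2 ^ 1 := by norm_num
      _ ≤ 2 ^ c := Nat.pow_le_pow_right (by norm_num) hc
  have hcK : c + 1 ≤ K := Nat.lt_two_pow_self
  have hKr : ((2:ℝ) ^ c) = (K:ℝ) := by rw [hKd]; push_cast; rfl
  rw [hKr] at hK
  have hKpos : (0:ℝ) < K := by exact_mod_cast (by omega : 0 < K)
  have hm3' : (N:ℝ) ≤ 3 * m := by exact_mod_cast hm3
  -- 12 K^2 log n ≤ m
  have hKm : 12 * (K:ℝ) ^ 2 * Real.log N ≤ m := by nlinarith
  have hKm2 : 12 * (K:ℝ) ^ 2 ≤ m := by
    have : 12 * (K:ℝ) ^ 2 * 1 ≤ 12 * (K:ℝ) ^ 2 * Real.log N :=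
      mul_le_mul_of_nonneg_left hlog (by positivity)
    linarith
  set t : ℕ := m / (K - 1) with ht
  have ht1 : t * (K - 1) ≤ m := Nat.div_mul_le_self m (K - 1)
  have ht2 : m < (t + 1) * (K - 1) := by
    have := Nat.lt_mul_div_succ m (by omega : 0 < K - 1)
    rw [ht]; rw [mul_comm] at this; exact this
  have hhalf : K = 2 * 2 ^ (c - 1) := by
    rw [hKd, ← pow_succ']; congr 1; omega
  have ht3 : t * 2 ^ (c - 1) ≤ m := by
    refine le_trans (Nat.mul_le_mul_left t ?_) ht1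
    have : 1 ≤ 2 ^ (c - 1) := Nat.one_le_two_pow
    omega
  set b : ℕ := m + 2 * c + 2 - t * 2 ^ (c - 1) with hb
  have hb2 : m + 2 * c + 2 ≤ t * 2 ^ (c - 1) + b := by omega
  have hbr : (b:ℝ) = m + 2 * c + 2 - t * 2 ^ (c - 1) := by
    rw [hb, Nat.cast_sub (by omega)]; push_cast; ring
  -- real estimates for t
  have hK1r : ((K - 1 : ℕ) : ℝ) = K - 1 := by rw [Nat.cast_sub (by omega)]; simp
  have ht2r : (m:ℝ) + 1 ≤ (t + 1) * (K - 1) := by
    have : m + 1 ≤ (t + 1) * (K - 1) := ht2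
    have h := (Nat.cast_le (α := ℝ)).mpr this
    push_cast at h
    rw [hK1r] at h
    exact h
  have htpos : (0:ℝ) ≤ t := Nat.cast_nonneg t
  have ht4 : (m:ℝ) / K - 1 ≤ t := by
    rw [sub_le_iff_le_add, div_le_iff₀ hKpos]
    nlinarith
  have ht5 : (m:ℝ) + m / K - K ≤ t * K := by
    nlinarith
  have hhr : (K:ℝ) = 2 * 2 ^ (c - 1) := by exact_mod_cast hhalf
  have ht6 : (m:ℝ) / 2 + m / (2 * K) - K / 2 ≤ t * 2 ^ (c - 1) := by
    have e : (t:ℝ) * 2 ^ (c - 1) = t * K / 2 := by rw [hhr]; ring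
    rw [e]
    have e2 : (m:ℝ) / (2 * K) = m / K / 2 := by field_simp
    rw [e2]
    linarith
  have hcr : (c:ℝ) + 1 ≤ K := by exact_mod_cast hcK
  have hbτ : (b:ℝ) ≤ m / 2 - m / (4 * K) := by
    have h1 : (b:ℝ) ≤ m / 2 - m / (2 * K) + K / 2 + 2 * K := by rw [hbr]; linarith
    have h2 : (5/2 : ℝ) * K ≤ m / (4 * K) := by
      rw [le_div_iff₀ (by positivity)]
      nlinarith
    have h3 : (m:ℝ) / (2 * K) = m / (4 * K) + m / (4 * K) := by field_simp; ring
    linarith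
  have hlow := low_le m b (Nat.pos_of_ne_zero hm0) (m / (4 * K)) (by positivity) hbτ
  have hexp : 2 * ((m:ℝ) / (4 * K)) ^ 2 / m = m / (8 * K ^ 2) := by
    field_simp; ring
  rw [hexp] at hlow
  have h12 : (3/2 : ℝ) * Real.log N ≤ m / (8 * K ^ 2) := by
    rw [le_div_iff₀ (by positivity)]
    nlinarith
  have hNlog : Real.exp (-((m:ℝ) / (8 * K ^ 2))) ≤ Real.exp (-(3/2 * Real.log N)) :=
    Real.exp_le_exp.mpr (by linarith)
  have hKN : 4 * (K:ℝ) ≤ Real.exp (3/2 * Real.log N) := by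
    -- (4K)^2 ≤ N ≤ N^3 = exp (3 log N)
    have h1 : (4 * (K:ℝ)) ^ 2 ≤ N := by nlinarith
    have h2 : (N:ℝ) = Real.exp (Real.log N) := (Real.exp_log hNpos).symm
    have h3 : (N:ℝ) ≤ (Real.exp (3/2 * Real.log N)) ^ 2 := by
      rw [← Real.exp_nat_mul]
      calc (N:ℝ) = Real.exp (Real.log N) := h2
        _ ≤ Real.exp ((2:ℕ) * (3/2 * Real.log N)) := by
            apply Real.exp_le_exp.mpr
            push_cast
            linarith
    exact le_of_sq_le_sq' h1 h3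
  have hfin : 4 * 2 ^ c * low (Fin m) b ≤ 2 ^ m := by
    have : (4:ℝ) * K * low (Fin m) b ≤ 2 ^ m := by
      calc (4:ℝ) * K * low (Fin m) b ≤ 4 * K * (2 ^ m * Real.exp (-(3/2 * Real.log N))) := by
            refine mul_le_mul_of_nonneg_left ?_ (by positivity)
            exact le_trans hlow (mul_le_mul_of_nonneg_left hNlog (by positivity))
        _ = (4 * K * Real.exp (-(3/2 * Real.log N))) * 2 ^ m := by ring
        _ ≤ 1 * 2 ^ m := by
            refine mul_le_mul_of_nonneg_right ?_ (by positivity)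
            rw [Real.exp_neg, ← div_eq_mul_inv, div_le_one (Real.exp_pos _)]
            exact hKN
        _ = 2 ^ m := one_mul _
    rw [hKd] at this
    exact_mod_cast this
  exact finite_thm m c t b hm0 ht1 hfin hb2
where
  le_of_sq_le_sq' {a x N : ℝ} (h1 : a ^ 2 ≤ N) (h3 : N ≤ (Real.exp x) ^ 2) : a ≤ Real.exp x := by
    nlinarith [Real.exp_pos x, sq_nonneg (a - Real.exp x), sq_nonneg (a + Real.exp x), abs_le_of_sq_le_sq (le_trans h1 h3) (Real.exp_pos x).le]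

end Pool.Agent.Helper34_Sidon
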