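import Pool.Agent.Helper34_Sidon.Count

/-! The averaging argument. -/

namespace Pool.Agent.Helper34_Sidon

open Finset

variable {ι κ F : Type*} [Fintype ι] [DecidableEq ι] [Fintype κ] [DecidableEq κ] [Field F]
  [Fintype F] [DecidableEq F]

/-- the nonempty members of the dependency code -/
def kerN (ω : ι → F) : Finset (Finset ι) :=
  Finset.univ.filter (fun ν => ν.Nonempty ∧ lin ω ν = 0)

open Classical in
/-- the bad sets -/
noncomputable def badset (ω : ι → F) (φ : F ≃+ (κ → ZMod 2)) (b : ℕ) (p : ι → F) :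
    Finset (Finset ι) :=
  Finset.univ.filter (fun S => ∃ ν ∈ kerN ω,
    (supp (av ω p φ S + av ω p φ (symmDiff S ν))).card < b ∨ Conf ω p φ S ν)

theorem card_symmDiff_superset (S ν : Finset ι) :
    (Finset.univ.filter (fun S' : Finset ι => ν ⊂ symmDiff S S')).card * 2 ^ ν.card ≤
      2 ^ Fintype.card ι := by
  rw [← card_supersets ν]
  refine Nat.mul_le_mul_right _ ?_
  refine Finset.card_le_card_of_injOn (fun S' => symmDiff S S') ?_ ?_
  · intro S' hS'
    simp only [Finset.coe_filter, Finset.mem_univ, true_and, Set.mem_ofPred_eq] at *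
    exact hS'.1
  · intro a _ b _ h
    have h1 : symmDiff S (symmDiff S a) = symmDiff S (symmDiff S b) := by
      simp only at h
      rw [h]
    rwa [symmDiff_symmDiff_cancel_left, symmDiff_symmDiff_cancel_left] at h1

theorem badset_card_le (ω : ι → F) (φ : F ≃+ (κ → ZMod 2)) (b : ℕ) (p : ι → F) :
    (badset ω φ b p).card ≤ ∑ ν ∈ kerN ω, ∑ S : Finset ι,
      ((if (supp (av ω p φ S + av ω p φ (symmDiff S ν))).card < b then 1 else 0) +
       ∑ S' ∈ Finset.univ.filter (fun S' : Finset ι => ν ⊂ symmDiff S S'),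
        (if b ≤ (supp (av ω p φ S + av ω p φ (symmDiff S ν))).card ∧
          supp (av ω p φ S + av ω p φ (symmDiff S ν)) ⊆ supp (av ω p φ S + av ω p φ S')
          then 1 else 0)) := by
  classical
  unfold badset
  rw [Finset.card_filter, Finset.sum_comm]
  refine Finset.sum_le_sum (fun S _ => ?_)
  split_ifs with h
  · obtain ⟨ν, hν, h⟩ := h
    refine le_trans ?_ (Finset.single_le_sum (f := fun ν => ((if (supp (av ω p φ S + av ω p φ (symmDiff S ν))).card < b then 1 else 0) +
       ∑ S' ∈ Finset.univ.filter (fun S' : Finset ι => ν ⊂ symmDiff S S'),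
        (if b ≤ (supp (av ω p φ S + av ω p φ (symmDiff S ν))).card ∧
          supp (av ω p φ S + av ω p φ (symmDiff S ν)) ⊆ supp (av ω p φ S + av ω p φ S')
          then 1 else 0))) (fun _ _ => Nat.zero_le _) hν)
    by_cases hlt : (supp (av ω p φ S + av ω p φ (symmDiff S ν))).card < b
    · simp only [hlt, if_true]
      omega
    · rcases h with h | h
      · exact absurd h hlt
      · obtain ⟨S', hS', hsub⟩ := h
        refine le_trans ?_ (Nat.le_add_left _ _)
        refine le_trans ?_ (Finset.single_le_sum (f := fun S' => (if b ≤ (supp (av ω p φ S + av ω p φ (symmDiff S ν))).card ∧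
          supp (av ω p φ S + av ω p φ (symmDiff S ν)) ⊆ supp (av ω p φ S + av ω p φ S')
          then 1 else 0)) (fun _ _ => Nat.zero_le _)
          (by simpa using hS' : S' ∈ Finset.univ.filter (fun S' : Finset ι => ν ⊂ symmDiff S S')))
        rw [if_pos ⟨not_lt.mp hlt, hsub⟩]
  · exact Nat.zero_le _

theorem sum_bad (ω : ι → F) (φ : F ≃+ (κ → ZMod 2)) [CharP F 2] (c μ b : ℕ)
    (hN : (kerN ω).card ≤ 2 ^ c) (hμ : ∀ ν ∈ kerN ω, μ ≤ ν.card)
    (h1 : 4 * 2 ^ c * low κ b ≤ 2 ^ Fintype.card κ)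
    (h2 : Fintype.card ι + c + 2 ≤ μ + b) :
    2 * ∑ p : ι → F, (badset ω φ b p).card ≤ 2 ^ Fintype.card ι * Fintype.card (ι → F) := by
  have step1 : ∑ p : ι → F, (badset ω φ b p).card ≤
      ∑ ν ∈ kerN ω, ∑ S : Finset ι,
      ((Finset.univ.filter (fun p : ι → F =>
          (supp (av ω p φ S + av ω p φ (symmDiff S ν))).card < b)).card +
       ∑ S' ∈ Finset.univ.filter (fun S' : Finset ι => ν ⊂ symmDiff S S'),
        (Finset.univ.filter (fun p : ι → F =>
          b ≤ (supp (av ω p φ S + av ω p φ (symmDiff S ν))).card ∧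
          supp (av ω p φ S + av ω p φ (symmDiff S ν)) ⊆ supp (av ω p φ S + av ω p φ S'))).card) := by
    refine le_trans (Finset.sum_le_sum (fun p _ => badset_card_le ω φ b p)) (le_of_eq ?_)
    rw [Finset.sum_comm]
    refine Finset.sum_congr rfl (fun ν _ => ?_)
    rw [Finset.sum_comm]
    refine Finset.sum_congr rfl (fun S _ => ?_)
    rw [Finset.sum_add_distrib, Finset.card_filter]
    congr 1
    rw [Finset.sum_comm]
    refine Finset.sum_congr rfl (fun S' _ => ?_)
    rw [Finset.card_filter]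
  set P := Fintype.card (ι → F) with hP
  set L := Fintype.card ι with hL
  -- bound of the first part
  have b1 : ∀ ν ∈ kerN ω, ∀ S : Finset ι, 4 * 2 ^ c * (Finset.univ.filter (fun p : ι → F =>
          (supp (av ω p φ S + av ω p φ (symmDiff S ν))).card < b)).card ≤ P := by
    intro ν hν S
    have hne : ν.Nonempty := by
      simp only [kerN, Finset.mem_filter, Finset.mem_univ, true_and] at hν
      exact hν.1
    have h := cnt1 ω φ b S hne
    have hpos : 0 < 2 ^ Fintype.card κ := by positivity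
    refine Nat.le_of_mul_le_mul_right ?_ hpos
    calc _ = 4 * 2 ^ c * ((Finset.univ.filter (fun p : ι → F =>
          (supp (av ω p φ S + av ω p φ (symmDiff S ν))).card < b)).card * 2 ^ Fintype.card κ) := by ring
      _ = (4 * 2 ^ c * low κ b) * P := by rw [h]; ring
      _ ≤ 2 ^ Fintype.card κ * P := Nat.mul_le_mul_right _ h1
      _ = P * 2 ^ Fintype.card κ := by ring
  have b2 : ∀ ν ∈ kerN ω, ∀ S : Finset ι, 4 * 2 ^ c *
       ∑ S' ∈ Finset.univ.filter (fun S' : Finset ι => ν ⊂ symmDiff S S'),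
        (Finset.univ.filter (fun p : ι → F =>
          b ≤ (supp (av ω p φ S + av ω p φ (symmDiff S ν))).card ∧
          supp (av ω p φ S + av ω p φ (symmDiff S ν)) ⊆ supp (av ω p φ S + av ω p φ S'))).card ≤ P := by
    intro ν hν S
    have hne : ν.Nonempty := by
      have := hν
      simp only [kerN, Finset.mem_filter, Finset.mem_univ, true_and] at this
      exact this.1
    have hμν := hμ ν hν
    set Q := ∑ S' ∈ Finset.univ.filter (fun S' : Finset ι => ν ⊂ symmDiff S S'),
        (Finset.univ.filter (fun p : ι → F =>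
          b ≤ (supp (av ω p φ S + av ω p φ (symmDiff S ν))).card ∧
          supp (av ω p φ S + av ω p φ (symmDiff S ν)) ⊆ supp (av ω p φ S + av ω p φ S'))).card with hQ
    have hQb : Q * 2 ^ b ≤
        (Finset.univ.filter (fun S' : Finset ι => ν ⊂ symmDiff S S')).card * P := by
      rw [hQ, Finset.sum_mul]
      calc _ ≤ ∑ S' ∈ Finset.univ.filter (fun S' : Finset ι => ν ⊂ symmDiff S S'), P := by
            refine Finset.sum_le_sum (fun S' hS' => ?_)
            simp only [Finset.mem_filter, Finset.mem_univ, true_and] at hS'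
            exact cnt2 ω φ b S S' hne hS'
        _ = _ := by rw [Finset.sum_const, smul_eq_mul]
    have h3 := card_symmDiff_superset S ν
    have hpos : 0 < 2 ^ (ν.card + b) := by positivity
    refine Nat.le_of_mul_le_mul_right ?_ hpos
    calc 4 * 2 ^ c * Q * 2 ^ (ν.card + b) = 4 * 2 ^ c * (Q * 2 ^ b) * 2 ^ ν.card := by
          rw [pow_add]; ring
      _ ≤ 4 * 2 ^ c * ((Finset.univ.filter (fun S' : Finset ι => ν ⊂ symmDiff S S')).card * P) *
            2 ^ ν.card := Nat.mul_le_mul_right _ (Nat.mul_le_mul_left _ hQb)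
      _ = 4 * 2 ^ c * P * ((Finset.univ.filter (fun S' : Finset ι => ν ⊂ symmDiff S S')).card *
            2 ^ ν.card) := by ring
      _ ≤ 4 * 2 ^ c * P * 2 ^ L := Nat.mul_le_mul_left _ h3
      _ = P * 2 ^ (L + c + 2) := by rw [pow_add, pow_add]; ring
      _ ≤ P * 2 ^ (ν.card + b) := Nat.mul_le_mul_left _
            (Nat.pow_le_pow_right (by norm_num) (by omega))
  have step2 : 4 * 2 ^ c * ∑ ν ∈ kerN ω, ∑ S : Finset ι,
      ((Finset.univ.filter (fun p : ι → F =>
          (supp (av ω p φ S + av ω p φ (symmDiff S ν))).card < b)).card +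
       ∑ S' ∈ Finset.univ.filter (fun S' : Finset ι => ν ⊂ symmDiff S S'),
        (Finset.univ.filter (fun p : ι → F =>
          b ≤ (supp (av ω p φ S + av ω p φ (symmDiff S ν))).card ∧
          supp (av ω p φ S + av ω p φ (symmDiff S ν)) ⊆ supp (av ω p φ S + av ω p φ S'))).card) ≤
      (kerN ω).card * (2 ^ L * (2 * P)) := by
    rw [Finset.mul_sum]
    calc _ ≤ ∑ ν ∈ kerN ω, (2 ^ L * (2 * P)) := by
          refine Finset.sum_le_sum (fun ν hν => ?_)
          rw [Finset.mul_sum]
          calc _ ≤ ∑ S : Finset ι, 2 * P := by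
                refine Finset.sum_le_sum (fun S _ => ?_)
                have := b1 ν hν S
                have := b2 ν hν S
                rw [mul_add]
                omega
            _ = 2 ^ L * (2 * P) := by
                rw [Finset.sum_const, Finset.card_univ, Fintype.card_finset, smul_eq_mul]
      _ = _ := by rw [Finset.sum_const, smul_eq_mul]
  have hcpos : 0 < 2 ^ c := by positivity
  have step3 : 4 * 2 ^ c * ∑ p : ι → F, (badset ω φ b p).card ≤ 2 ^ c * (2 ^ L * (2 * P)) :=
    le_trans (Nat.mul_le_mul_left _ step1) (le_trans step2 (Nat.mul_le_mul_right _ hN))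
  have step4 : 2 ^ c * (2 * (2 * ∑ p : ι → F, (badset ω φ b p).card)) ≤
      2 ^ c * (2 * (2 ^ L * P)) := by
    calc _ = 4 * 2 ^ c * ∑ p : ι → F, (badset ω φ b p).card := by ring
      _ ≤ _ := step3
      _ = _ := by ring
  have step5 := Nat.le_of_mul_le_mul_left step4 hcpos
  omega

theorem exists_good (ω : ι → F) (φ : F ≃+ (κ → ZMod 2)) [CharP F 2] (c μ b : ℕ)
    (hN : (kerN ω).card ≤ 2 ^ c) (hμ : ∀ ν ∈ kerN ω, μ ≤ ν.card)
    (h1 : 4 * 2 ^ c * low κ b ≤ 2 ^ Fintype.card κ)
    (h2 : Fintype.card ι + c + 2 ≤ μ + b) :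
    ∃ p : ι → F, 2 * (badset ω φ b p).card ≤ 2 ^ Fintype.card ι := by
  by_contra hcon
  push Not at hcon
  have h := sum_bad ω φ c μ b hN hμ h1 h2
  have h3 : ∑ p : ι → F, 2 ^ Fintype.card ι < ∑ p : ι → F, 2 * (badset ω φ b p).card := by
    refine Finset.sum_lt_sum_of_nonempty ⟨0, Finset.mem_univ _⟩ (fun p _ => hcon p)
  rw [Finset.sum_const, Finset.card_univ, smul_eq_mul, ← Finset.mul_sum] at h3
  have h4 : Fintype.card (ι → F) * 2 ^ Fintype.card ι = 2 ^ Fintype.card ι * Fintype.card (ι → F) :=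
    mul_comm _ _
  omega

/-- The finite construction in terms of the dependency code. -/
theorem sidon_of_code (ω : ι → F) (φ : F ≃+ (κ → ZMod 2)) [CharP F 2] (c μ b : ℕ)
    (hN : (kerN ω).card ≤ 2 ^ c) (hμ : ∀ ν ∈ kerN ω, μ ≤ ν.card)
    (h1 : 4 * 2 ^ c * low κ b ≤ 2 ^ Fintype.card κ)
    (h2 : Fintype.card ι + c + 2 ≤ μ + b) :
    ∃ A : Finset (ι ⊕ κ → ℤ), (∀ x ∈ A, ∀ i, x i = 0 ∨ x i = 1) ∧
      (∀ x ∈ A, ∀ y ∈ A, ∀ z ∈ A, ∀ w ∈ A, x + y = z + w → (x = z ∧ y = w) ∨ (x = w ∧ y = z)) ∧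
      2 ^ Fintype.card ι ≤ 2 * A.card := by
  classical
  obtain ⟨p, hp⟩ := exists_good ω φ c μ b hN hμ h1 h2
  refine ⟨((badset ω φ b p)ᶜ).image (vec ω p φ), ?_, ?_, ?_⟩
  · intro x hx
    obtain ⟨S, _, rfl⟩ := Finset.mem_image.mp hx
    exact fun i => vec_zero_one ω p φ S i
  · intro x hx y hy z hz w hw h
    obtain ⟨S1, hS1, rfl⟩ := Finset.mem_image.mp hx
    obtain ⟨S2, _, rfl⟩ := Finset.mem_image.mp hy
    obtain ⟨S3, _, rfl⟩ := Finset.mem_image.mp hz
    obtain ⟨S4, _, rfl⟩ := Finset.mem_image.mp hw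
    have hgood : ∀ ν : Finset ι, ν.Nonempty → lin ω ν = 0 → ¬ Conf ω p φ S1 ν := by
      intro ν hν h0 hc
      apply Finset.mem_compl.mp hS1
      unfold badset
      simp only [Finset.mem_filter, Finset.mem_univ, true_and]
      exact ⟨ν, by simp [kerN, hν, h0], Or.inr hc⟩
    rcases vec_sidon ω p φ hgood h with ⟨e1, e2⟩ | ⟨e1, e2⟩
    · left; rw [e1, e2]; exact ⟨rfl, rfl⟩
    · right; rw [e1, e2]; exact ⟨rfl, rfl⟩
  · rw [Finset.card_image_of_injective _ (vec_injective ω p φ), Finset.card_compl,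
      Fintype.card_finset]
    omega

end Pool.Agent.Helper34_Sidon
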