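import Pool.Agent.Helper34_Sidon.Avg

/-! Existence of the dependency code (a repeated simplex code). -/

namespace Pool.Agent.Helper34_Sidon

open Finset

/-- the value at `e` of the coordinate with column `h` -/
def pair {c : ℕ} (e : Fin c → ZMod 2) : (Fin c → ZMod 2) →+ ZMod 2 where
  toFun h := ∑ j, e j * h j
  map_zero' := by simp
  map_add' x y := by simp [mul_add, Finset.sum_add_distrib]

theorem card_pair_one {c : ℕ} {e : Fin c → ZMod 2} (he : e ≠ 0) :
    (Finset.univ.filter (fun h : Fin c → ZMod 2 => pair e h = 1)).card * 2 = 2 ^ c := by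
  have hs : Function.Surjective (pair e) := by
    intro y
    obtain ⟨j, hj⟩ := Function.ne_iff.mp he
    have hj1 : e j = 1 := by
      rcases zmod2_cases (e j) with h | h
      · exact absurd h hj
      · exact h
    refine ⟨Pi.single j y, ?_⟩
    change ∑ i, e i * (Pi.single j y : Fin c → ZMod 2) i = y
    rw [Finset.sum_eq_single j]
    · rw [hj1]; simp
    · intro i _ hi; simp [Pi.single_eq_of_ne hi]
    · intro h; exact absurd (Finset.mem_univ _) h
  have h := card_preimage (pair e) hs {1}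
  simp only [Finset.mem_singleton, Finset.card_singleton, one_mul, ZMod.card] at h
  rw [h, Fintype.card_fun, ZMod.card, Fintype.card_fin]

/-- columns: every nonzero column occurs at least `t` times -/
theorem exists_columns (m c t : ℕ) (hm : t * (2 ^ c - 1) ≤ m) :
    ∃ H : Fin m → (Fin c → ZMod 2), ∀ e : Fin c → ZMod 2, e ≠ 0 →
      t * 2 ^ (c - 1) ≤ (Finset.univ.filter (fun i => pair e (H i) = 1)).card := by
  classical
  have hcard : Fintype.card (Fin t × {h : Fin c → ZMod 2 // h ≠ 0}) ≤ Fintype.card (Fin m) := by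
    rw [Fintype.card_prod, Fintype.card_fin, Fintype.card_fin, Fintype.card_subtype_compl,
      Fintype.card_subtype_eq, Fintype.card_fun, ZMod.card, Fintype.card_fin]
    exact hm
  obtain ⟨f⟩ := Function.Embedding.nonempty_of_card_le hcard
  refine ⟨Function.extend f (fun x => (x.2 : Fin c → ZMod 2)) 0, ?_⟩
  intro e he
  have hc := card_pair_one he
  have hc0 : 0 < c := by
    rcases Nat.eq_zero_or_pos c with h | h
    · subst h
      exact absurd (Subsingleton.elim e 0) he
    · exact h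
  have h2 : (Finset.univ.filter (fun h : Fin c → ZMod 2 => pair e h = 1)).card = 2 ^ (c - 1) := by
    have : 2 ^ c = 2 ^ (c - 1) * 2 := by
      rw [← pow_succ]; congr 1; omega
    omega
  have h3 : t * 2 ^ (c - 1) = ((Finset.univ : Finset (Fin t)) ×ˢ
      (Finset.univ.filter (fun h : Fin c → ZMod 2 => pair e h = 1))).card := by
    rw [Finset.card_product, h2, Finset.card_univ, Fintype.card_fin]
  rw [h3]
  have hne : ∀ h : Fin c → ZMod 2, pair e h = 1 → h ≠ 0 := by
    intro h h1 h0
    rw [h0, map_zero] at h1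
    exact zero_ne_one h1
  refine Finset.card_le_card_of_injOn
    (fun x => if hx : pair e x.2 = 1 then f (x.1, ⟨x.2, hne _ hx⟩) else f.toFun (x.1, ⟨Function.const _ 1, by
      intro h0
      have := congrFun h0 ⟨0, hc0⟩
      simp at this⟩)) ?_ ?_
  · intro x hx
    simp only [Finset.coe_product, Finset.coe_univ, Finset.coe_filter, Finset.mem_univ, true_and,
      Set.mem_prod, Set.mem_univ, Set.mem_ofPred_eq] at *
    rw [dif_pos hx]
    rw [f.injective.extend_apply]
    exact hx
  · intro x hx y hy h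
    simp only [Finset.coe_product, Finset.coe_univ, Finset.coe_filter, Finset.mem_univ, true_and,
      Set.mem_prod, Set.mem_univ, Set.mem_ofPred_eq] at *
    rw [dif_pos hx, dif_pos hy] at h
    have h5 := f.injective h
    simp only [Prod.mk.injEq, Subtype.mk.injEq] at h5
    exact Prod.ext h5.1 h5.2

variable {F : Type*} [Field F]

/-- the vectors `ω` -/
noncomputable def omg {m c : ℕ} (φ : F ≃+ (Fin m → ZMod 2)) (H : Fin m → (Fin c → ZMod 2)) :
    Fin m ⊕ Fin c → F :=
  Sum.elim (fun i => φ.symm (Pi.single i 1)) (fun j => φ.symm (fun i => H i j))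

/-- the right part of a set -/
def rpart {m c : ℕ} (ν : Finset (Fin m ⊕ Fin c)) : Fin c → ZMod 2 :=
  fun j => if Sum.inr j ∈ ν then 1 else 0

theorem phi_lin {m c : ℕ} (φ : F ≃+ (Fin m → ZMod 2)) (H : Fin m → (Fin c → ZMod 2))
    (ν : Finset (Fin m ⊕ Fin c)) (i : Fin m) :
    φ (lin (omg φ H) ν) i = (if Sum.inl i ∈ ν then 1 else 0) + pair (rpart ν) (H i) := by
  classical
  unfold lin
  rw [map_sum, Finset.sum_apply]
  have h1 : ∑ x ∈ ν, φ (omg φ H x) i = ∑ x : Fin m ⊕ Fin c, if x ∈ ν then φ (omg φ H x) i else 0 := by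
    rw [Finset.sum_ite_mem, Finset.univ_inter]
  rw [h1, Fintype.sum_sum_type]
  congr 1
  · rw [Finset.sum_eq_single i]
    · simp [omg]
    · intro j _ hj
      simp [omg, Pi.single_eq_of_ne (Ne.symm hj)]
    · intro h; exact absurd (Finset.mem_univ _) h
  · change _ = ∑ j, rpart ν j * H i j
    refine Finset.sum_congr rfl (fun j _ => ?_)
    simp [omg, rpart]

theorem mem_inl_iff {m c : ℕ} (φ : F ≃+ (Fin m → ZMod 2)) (H : Fin m → (Fin c → ZMod 2))
    {ν : Finset (Fin m ⊕ Fin c)} (h0 : lin (omg φ H) ν = 0) (i : Fin m) :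
    Sum.inl i ∈ ν ↔ pair (rpart ν) (H i) = 1 := by
  have h := phi_lin φ H ν i
  rw [h0, map_zero, Pi.zero_apply] at h
  by_cases hi : Sum.inl i ∈ ν
  · simp only [hi, if_true, true_iff] at *
    revert h
    generalize pair (rpart ν) (H i) = y
    revert y
    decide
  · simp only [hi, if_false, zero_add, false_iff] at *
    rw [← h]
    exact zero_ne_one

theorem kerN_card_le {m c : ℕ} [Fintype F] [DecidableEq F] (φ : F ≃+ (Fin m → ZMod 2))
    (H : Fin m → (Fin c → ZMod 2)) : (kerN (omg φ H)).card ≤ 2 ^ c := by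
  classical
  have h1 : 2 ^ c = (Finset.univ : Finset (Fin c → ZMod 2)).card := by
    rw [Finset.card_univ, Fintype.card_fun, ZMod.card, Fintype.card_fin]
  rw [h1]
  refine Finset.card_le_card_of_injOn rpart (fun _ _ => by simp) ?_
  intro ν hν μ hμ h
  simp only [kerN, Finset.coe_filter, Finset.mem_univ, true_and, Set.mem_ofPred_eq] at hν hμ
  ext x
  rcases x with i | j
  · rw [mem_inl_iff φ H hν.2, mem_inl_iff φ H hμ.2, h]
  · have := congrFun h j
    by_cases a : Sum.inr j ∈ ν <;> by_cases b : Sum.inr j ∈ μ <;> simp_all [rpart]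

theorem kerN_weight {m c : ℕ} [Fintype F] [DecidableEq F] (φ : F ≃+ (Fin m → ZMod 2))
    (H : Fin m → (Fin c → ZMod 2)) (μ : ℕ)
    (hH : ∀ e : Fin c → ZMod 2, e ≠ 0 →
      μ ≤ (Finset.univ.filter (fun i => pair e (H i) = 1)).card) :
    ∀ ν ∈ kerN (omg φ H), μ ≤ ν.card := by
  classical
  intro ν hν
  simp only [kerN, Finset.mem_filter, Finset.mem_univ, true_and] at hν
  obtain ⟨hne, h0⟩ := hν
  have he : rpart ν ≠ 0 := by
    intro he
    obtain ⟨x, hx⟩ := hne
    rcases x with i | j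
    · rw [mem_inl_iff φ H h0, he] at hx
      have : pair (0 : Fin c → ZMod 2) (H i) = 0 := by
        change ∑ j, (0 : Fin c → ZMod 2) j * H i j = 0
        simp
      rw [this] at hx
      exact zero_ne_one hx
    · have := congrFun he j
      simp [rpart, hx] at this
  refine le_trans (hH _ he) ?_
  refine Finset.card_le_card_of_injOn Sum.inl ?_ (Sum.inl_injective.injOn)
  intro i hi
  simp only [Finset.coe_filter, Finset.mem_univ, true_and, Set.mem_ofPred_eq] at hi
  exact (mem_inl_iff φ H h0 i).mpr hi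

/-- The finite theorem. -/
theorem finite_thm (m c t b : ℕ) (hm0 : m ≠ 0) (hm : t * (2 ^ c - 1) ≤ m)
    (h1 : 4 * 2 ^ c * low (Fin m) b ≤ 2 ^ m) (h2 : m + 2 * c + 2 ≤ t * 2 ^ (c - 1) + b) :
    ∃ A : Finset (Fin (2 * m + c) → ℤ), (∀ x ∈ A, ∀ i, x i = 0 ∨ x i = 1) ∧
      (∀ x ∈ A, ∀ y ∈ A, ∀ z ∈ A, ∀ w ∈ A, x + y = z + w → (x = z ∧ y = w) ∨ (x = w ∧ y = z)) ∧
      2 ^ (m + c) ≤ 2 * A.card := by
  classical
  let F := GaloisField 2 m
  haveI : Fintype F := Fintype.ofFinite F
  haveI : CharP F 2 := inferInstance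
  have hfr : Module.finrank (ZMod 2) F = m := GaloisField.finrank 2 hm0
  haveI : FiniteDimensional (ZMod 2) F := inferInstance
  have hfr2 : Module.finrank (ZMod 2) F = Module.finrank (ZMod 2) (Fin m → ZMod 2) := by
    rw [hfr, Module.finrank_fin_fun]
  let φ : F ≃+ (Fin m → ZMod 2) := (LinearEquiv.ofFinrankEq F (Fin m → ZMod 2) hfr2).toAddEquiv
  obtain ⟨H, hH⟩ := exists_columns m c t hm
  obtain ⟨A, hA1, hA2, hA3⟩ := sidon_of_code (omg φ H) φ c (t * 2 ^ (c - 1)) b
    (kerN_card_le φ H) (kerN_weight φ H _ hH) (by simpa using h1)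
    (by rw [Fintype.card_sum, Fintype.card_fin, Fintype.card_fin]; omega)
  have hcard : Fintype.card (Fin (2 * m + c)) = Fintype.card ((Fin m ⊕ Fin c) ⊕ Fin m) := by
    simp only [Fintype.card_sum, Fintype.card_fin]
    omega
  let ε : Fin (2 * m + c) ≃ (Fin m ⊕ Fin c) ⊕ Fin m := Fintype.equivOfCardEq hcard
  let g : (((Fin m ⊕ Fin c) ⊕ Fin m) → ℤ) → (Fin (2 * m + c) → ℤ) := fun x => x ∘ ε
  have hg : Function.Injective g := by
    intro x y h
    funext i
    have := congrFun h (ε.symm i)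
    simpa [g] using this
  refine ⟨A.image g, ?_, ?_, ?_⟩
  · intro x hx i
    obtain ⟨x', hx', rfl⟩ := Finset.mem_image.mp hx
    exact hA1 x' hx' (ε i)
  · intro x hx y hy z hz w hw h
    obtain ⟨x', hx', rfl⟩ := Finset.mem_image.mp hx
    obtain ⟨y', hy', rfl⟩ := Finset.mem_image.mp hy
    obtain ⟨z', hz', rfl⟩ := Finset.mem_image.mp hz
    obtain ⟨w', hw', rfl⟩ := Finset.mem_image.mp hw
    have h' : g (x' + y') = g (z' + w') := h
    rcases hA2 x' hx' y' hy' z' hz' w' hw' (hg h') with ⟨e1, e2⟩ | ⟨e1, e2⟩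
    · left; rw [e1, e2]; exact ⟨rfl, rfl⟩
    · right; rw [e1, e2]; exact ⟨rfl, rfl⟩
  · rw [Finset.card_image_of_injective _ hg]
    simpa [Fintype.card_sum] using hA3

end Pool.Agent.Helper34_Sidon
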