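import Pool.Agent.Helper34_Sidon.Sid

/-! Counting over the random linear part. -/

namespace Pool.Agent.Helper34_Sidon

open Finset

theorem card_preimage {G H : Type*} [AddCommGroup G] [AddCommGroup H] [Fintype G] [Fintype H]
    [DecidableEq H] (f : G →+ H) (hf : Function.Surjective f) (R : Finset H) :
    (Finset.univ.filter (fun g => f g ∈ R)).card * Fintype.card H = R.card * Fintype.card G := by
  classical
  have hc : ∀ x y : H, (Finset.univ.filter (fun g => f g = x)).card =
      (Finset.univ.filter (fun g => f g = y)).card := by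
    intro x y
    exact AddMonoidHom.card_fiber_eq_of_mem_range f (hf x) (hf y)
  have h1 : ∀ R : Finset H, (Finset.univ.filter (fun g => f g ∈ R)).card =
      R.card * (Finset.univ.filter (fun g => f g = 0)).card := by
    intro R
    rw [Finset.card_eq_sum_card_fiberwise (f := f) (t := R) (s := Finset.univ.filter (fun g => f g ∈ R))]
    · have : ∀ b ∈ R, ((Finset.univ.filter (fun g => f g ∈ R)).filter (fun g => f g = b)).card =
          (Finset.univ.filter (fun g => f g = 0)).card := by
        intro b hb
        rw [← hc b 0]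
        congr 1
        ext g
        simp only [Finset.mem_filter, Finset.mem_univ, true_and]
        constructor
        · rintro ⟨_, h⟩; exact h
        · intro h; exact ⟨h ▸ hb, h⟩
      rw [Finset.sum_congr rfl this, Finset.sum_const, smul_eq_mul]
    · intro g hg
      simpa using hg
  have h2 := h1 Finset.univ
  simp only [Finset.mem_univ, Finset.filter_true, Finset.card_univ] at h2
  rw [h1 R, h2]
  ring

variable {ι κ F : Type*} [Fintype ι] [DecidableEq ι] [Fintype κ] [DecidableEq κ] [Field F]
  [Fintype F] [DecidableEq F]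

/-- binary words and their supports -/
def suppEquiv : (κ → ZMod 2) ≃ Finset κ where
  toFun := supp
  invFun s := fun j => if j ∈ s then 1 else 0
  left_inv a := by
    funext j
    rcases zmod2_cases (a j) with h | h <;> simp [supp, h]
  right_inv s := by
    ext j
    simp [supp]

theorem card_word_filter (P : Finset κ → Prop) [DecidablePred P] :
    (Finset.univ.filter (fun a : κ → ZMod 2 => P (supp a))).card =
      (Finset.univ.filter (fun s : Finset κ => P s)).card := by
  refine Finset.card_bij (fun a _ => supp a) ?_ ?_ ?_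
  · intro a ha
    simpa using ha
  · intro a _ b _ h
    exact suppEquiv.injective h
  · intro s hs
    refine ⟨suppEquiv.symm s, ?_, ?_⟩
    · have : supp (suppEquiv.symm s) = s := suppEquiv.apply_symm_apply s
      simp only [Finset.mem_filter, Finset.mem_univ, true_and, this] at *
      exact hs
    · exact suppEquiv.apply_symm_apply s

/-- the number of words of weight less than `b` -/
def low (κ : Type*) [Fintype κ] [DecidableEq κ] (b : ℕ) : ℕ :=
  (Finset.univ.filter (fun s : Finset κ => s.card < b)).card

theorem card_supersets (s : Finset κ) :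
    (Finset.univ.filter (fun t : Finset κ => s ⊆ t)).card * 2 ^ s.card = 2 ^ Fintype.card κ := by
  have h1 : Finset.univ.filter (fun t : Finset κ => s ⊆ t) = Finset.Icc s Finset.univ := by
    ext t
    simp
  rw [h1, Finset.card_Icc_finset (Finset.subset_univ s), ← pow_add, Finset.card_univ]
  congr 1
  have := Finset.card_le_univ s
  omega

theorem card_F (φ : F ≃+ (κ → ZMod 2)) : Fintype.card F = 2 ^ Fintype.card κ := by
  rw [Fintype.card_congr φ.toEquiv, Fintype.card_fun, ZMod.card]

/-- evaluation at a set -/
def evS (F : Type*) [Field F] (ν : Finset ι) : (ι → F) →+ F where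
  toFun p := lin p ν
  map_zero' := by simp [lin]
  map_add' p q := by simp [lin, Finset.sum_add_distrib]

theorem evS_surjective {ν : Finset ι} (hν : ν.Nonempty) : Function.Surjective (evS F ν) := by
  intro y
  obtain ⟨i, hi⟩ := hν
  refine ⟨Pi.single i y, ?_⟩
  change lin (Pi.single i y) ν = y
  unfold lin
  rw [Finset.sum_eq_single i]
  · simp
  · intro j _ hj; simp [Pi.single_eq_of_ne hj]
  · intro h; exact absurd hi h

theorem evS_prod_surjective {ν τ : Finset ι} (hν : ν.Nonempty) (h : ν ⊂ τ) :
    Function.Surjective ((evS F ν).prod (evS F τ)) := by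
  rintro ⟨x, y⟩
  obtain ⟨i, hi⟩ := hν
  obtain ⟨hsub, hns⟩ := h
  obtain ⟨j, hj, hj'⟩ := Finset.not_subset.mp hns
  have hij : i ≠ j := fun e => hj' (e ▸ hi)
  refine ⟨Pi.single i x + Pi.single j (y - x), ?_⟩
  have e1 : lin (Pi.single i x + Pi.single j (y - x)) ν = x := by
    unfold lin
    rw [Finset.sum_eq_single i]
    · simp [Pi.single_eq_of_ne hij]
    · intro k hk hki
      have : k ≠ j := fun e => hj' (e ▸ hk)
      simp [Pi.single_eq_of_ne hki, Pi.single_eq_of_ne this]
    · intro h; exact absurd hi h
  have e2 : lin (Pi.single i x + Pi.single j (y - x)) τ = y := by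
    unfold lin
    simp only [Pi.add_apply, Finset.sum_add_distrib]
    rw [Finset.sum_eq_single i, Finset.sum_eq_single j]
    · simp
    · intro k _ hk; simp [Pi.single_eq_of_ne hk]
    · intro h; exact absurd hj h
    · intro k _ hk; simp [Pi.single_eq_of_ne hk]
    · intro h; exact absurd (hsub hi) h
  exact Prod.ext e1 e2

theorem av_add (ω p : ι → F) (φ : F ≃+ (κ → ZMod 2)) [CharP F 2] (S T : Finset ι) :
    av ω p φ S + av ω p φ T = φ (qf ω S + qf ω T + lin p (symmDiff S T)) := by
  unfold av
  rw [← map_add]
  congr 1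
  rw [lin_symmDiff]
  ring

theorem cnt1 (ω : ι → F) (φ : F ≃+ (κ → ZMod 2)) [CharP F 2] (b : ℕ) (S : Finset ι)
    {ν : Finset ι} (hν : ν.Nonempty) :
    (Finset.univ.filter (fun p : ι → F =>
      (supp (av ω p φ S + av ω p φ (symmDiff S ν))).card < b)).card * 2 ^ Fintype.card κ =
      low κ b * Fintype.card (ι → F) := by
  have h := card_preimage (evS F ν) (evS_surjective hν)
    (Finset.univ.filter (fun x : F => (supp (φ (qf ω S + qf ω (symmDiff S ν) + x))).card < b))
  rw [card_F φ] at h
  have e1 : (Finset.univ.filter (fun x : F =>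
      (supp (φ (qf ω S + qf ω (symmDiff S ν) + x))).card < b)).card = low κ b := by
    unfold low
    rw [← card_word_filter]
    refine Finset.card_bij (fun x _ => φ (qf ω S + qf ω (symmDiff S ν) + x)) ?_ ?_ ?_
    · intro a ha
      simpa using ha
    · intro a _ c _ h
      exact add_left_cancel (φ.injective h)
    · intro a ha
      refine ⟨φ.symm a - (qf ω S + qf ω (symmDiff S ν)), ?_, ?_⟩
      · simp only [Finset.mem_filter, Finset.mem_univ, true_and, add_sub_cancel,
          AddEquiv.apply_symm_apply] at *
        exact ha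
      · simp
  rw [e1] at h
  rw [← h]
  congr 2
  ext p
  simp only [Finset.mem_filter, Finset.mem_univ, true_and]
  rw [av_add, symmDiff_symmDiff_cancel_left]
  rfl

theorem cnt2 (ω : ι → F) (φ : F ≃+ (κ → ZMod 2)) [CharP F 2] (b : ℕ) (S S' : Finset ι)
    {ν : Finset ι} (hν : ν.Nonempty) (hS : ν ⊂ symmDiff S S') :
    (Finset.univ.filter (fun p : ι → F =>
      b ≤ (supp (av ω p φ S + av ω p φ (symmDiff S ν))).card ∧
      supp (av ω p φ S + av ω p φ (symmDiff S ν)) ⊆ supp (av ω p φ S + av ω p φ S'))).card * 2 ^ b ≤
      Fintype.card (ι → F) := by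
  set g := qf ω S + qf ω (symmDiff S ν) with hg
  set g' := qf ω S + qf ω S' with hg'
  set R : Finset (F × F) := Finset.univ.filter (fun x : F × F =>
    b ≤ (supp (φ (g + x.1))).card ∧ supp (φ (g + x.1)) ⊆ supp (φ (g' + x.2))) with hR
  have h := card_preimage ((evS F ν).prod (evS F (symmDiff S S'))) (evS_prod_surjective hν hS) R
  have hRc : R.card * 2 ^ b ≤ Fintype.card (F × F) := by
    have e1 : R.card = (Finset.univ.filter (fun x : (κ → ZMod 2) × (κ → ZMod 2) =>
        b ≤ (supp x.1).card ∧ supp x.1 ⊆ supp x.2)).card := by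
      refine Finset.card_bij (fun x _ => (φ (g + x.1), φ (g' + x.2))) ?_ ?_ ?_
      · intro a ha
        simpa [hR] using ha
      · intro a _ c _ h
        have h1 := (Prod.mk.injEq _ _ _ _).mp h
        exact Prod.ext (add_left_cancel (φ.injective h1.1)) (add_left_cancel (φ.injective h1.2))
      · intro a ha
        refine ⟨(φ.symm a.1 - g, φ.symm a.2 - g'), ?_, ?_⟩
        · simp only [hR, Finset.mem_filter, Finset.mem_univ, true_and, add_sub_cancel,
            AddEquiv.apply_symm_apply] at *
          exact ha
        · simp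
    rw [e1]
    have e2 : (Finset.univ.filter (fun x : (κ → ZMod 2) × (κ → ZMod 2) =>
        b ≤ (supp x.1).card ∧ supp x.1 ⊆ supp x.2)).card =
        ∑ a : κ → ZMod 2, (Finset.univ.filter (fun c : κ → ZMod 2 =>
          b ≤ (supp a).card ∧ supp a ⊆ supp c)).card := by
      simp only [Finset.card_filter]
      rw [Fintype.sum_prod_type]
    rw [e2, Finset.sum_mul]
    have e3 : ∀ a : κ → ZMod 2, (Finset.univ.filter (fun c : κ → ZMod 2 =>
          b ≤ (supp a).card ∧ supp a ⊆ supp c)).card * 2 ^ b ≤ 2 ^ Fintype.card κ := by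
      intro a
      rw [← card_supersets (supp a), ← card_word_filter (fun t => supp a ⊆ t)]
      by_cases hb : b ≤ (supp a).card
      · refine Nat.mul_le_mul (Finset.card_le_card ?_) (Nat.pow_le_pow_right (by norm_num) hb)
        intro c hc
        simp only [Finset.mem_filter, Finset.mem_univ, true_and] at *
        exact hc.2
      · have : (Finset.univ.filter (fun c : κ → ZMod 2 =>
          b ≤ (supp a).card ∧ supp a ⊆ supp c)) = ∅ := by
          ext c; simp [hb]
        rw [this]; simp
    calc ∑ a : κ → ZMod 2, (Finset.univ.filter (fun c : κ → ZMod 2 =>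
          b ≤ (supp a).card ∧ supp a ⊆ supp c)).card * 2 ^ b
        ≤ ∑ a : κ → ZMod 2, 2 ^ Fintype.card κ := Finset.sum_le_sum (fun a _ => e3 a)
      _ = Fintype.card (F × F) := by
          rw [Finset.sum_const, Finset.card_univ, Fintype.card_fun, ZMod.card, Fintype.card_prod,
            card_F φ, smul_eq_mul]
  have hFpos : 0 < Fintype.card (F × F) := Fintype.card_pos
  have e4 : (Finset.univ.filter (fun p : ι → F =>
      b ≤ (supp (av ω p φ S + av ω p φ (symmDiff S ν))).card ∧
      supp (av ω p φ S + av ω p φ (symmDiff S ν)) ⊆ supp (av ω p φ S + av ω p φ S'))) =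
      Finset.univ.filter (fun p : ι → F =>
        ((evS F ν).prod (evS F (symmDiff S S'))) p ∈ R) := by
    ext p
    simp only [hR, Finset.mem_filter, Finset.mem_univ, true_and]
    rw [av_add, av_add, symmDiff_symmDiff_cancel_left]
    rfl
  rw [e4]
  have h5 : (Finset.univ.filter (fun p : ι → F =>
        ((evS F ν).prod (evS F (symmDiff S S'))) p ∈ R)).card * 2 ^ b * Fintype.card (F × F) ≤
        Fintype.card (ι → F) * Fintype.card (F × F) := by
    calc _ = (Finset.univ.filter (fun p : ι → F =>
        ((evS F ν).prod (evS F (symmDiff S S'))) p ∈ R)).card * Fintype.card (F × F) * 2 ^ b := by ring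
      _ = R.card * Fintype.card (ι → F) * 2 ^ b := by rw [h]
      _ = (R.card * 2 ^ b) * Fintype.card (ι → F) := by ring
      _ ≤ Fintype.card (F × F) * Fintype.card (ι → F) := Nat.mul_le_mul_right _ hRc
      _ = _ := by ring
  exact Nat.le_of_mul_le_mul_right h5 hFpos

end Pool.Agent.Helper34_Sidon
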