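import Pool.Agent.Helper34_Sidon.Asym

/-! The final statement. -/

namespace Pool.Agent.Helper34_Sidon

open Finset Filter

theorem div_log_large (n : ℕ) (hn : 2000000 ≤ n) : 0 < Real.log n ∧ 1 ≤ Real.log n ∧
    Real.log n ≤ n / 576 := by
  have hn' : (2000000:ℝ) ≤ n := by exact_mod_cast hn
  have hpos : (0:ℝ) < n := by linarith
  have h1 : 1 ≤ Real.log n := by
    rw [Real.le_log_iff_exp_le hpos]
    have := Real.exp_one_lt_d9
    linarith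
  refine ⟨by linarith, h1, ?_⟩
  -- log n = 2 log √n ≤ 2 √n
  set s := Real.sqrt n with hs
  have hs0 : 0 ≤ s := Real.sqrt_nonneg _
  have hs2 : s ^ 2 = n := Real.sq_sqrt hpos.le
  have hspos : 0 < s := Real.sqrt_pos.mpr hpos
  have h2 : Real.log n = 2 * Real.log s := by
    rw [← hs2, Real.log_pow]; push_cast; ring
  have h3 : Real.log s ≤ s - 1 := Real.log_le_sub_one_of_pos hspos
  have h4 : (1152:ℝ) ≤ s := by
    rw [hs]
    apply Real.le_sqrt_of_sq_le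
    norm_num
    linarith
  rw [h2, ← hs2, le_div_iff₀ (by norm_num)]
  nlinarith

theorem final (n : ℕ) (hn : 2000000 ≤ n) :
    ∃ A : Finset (Fin n → ℤ), (∀ x ∈ A, ∀ i, x i = 0 ∨ x i = 1) ∧
      (∀ x ∈ A, ∀ y ∈ A, ∀ z ∈ A, ∀ w ∈ A, x + y = z + w → (x = z ∧ y = w) ∨ (x = w ∧ y = z)) ∧
      1 / 10 * ((n:ℝ) / Real.log n) ^ (1/4 : ℝ) * (2:ℝ) ^ ((n:ℝ) / 2) ≤ (A.card : ℝ) := by
  obtain ⟨hlpos, hlog, hbig⟩ := div_log_large n hn
  have hn' : (2000000:ℝ) ≤ n := by exact_mod_cast hn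
  have hnpos : (0:ℝ) < n := by linarith
  set q : ℝ := (n:ℝ) / Real.log n with hq
  have hqpos : 0 < q := div_pos hnpos hlpos
  have hq576 : 576 ≤ q := by
    rw [hq, le_div_iff₀ hlpos]; linarith
  have hqn : q ≤ n := by
    rw [hq, div_le_iff₀ hlpos]; nlinarith
  set y : ℝ := Real.sqrt q / 6 with hy
  have hy36 : 36 * y ^ 2 = q := by
    rw [hy, div_pow, Real.sq_sqrt hqpos.le]; ring
  have hy0 : 0 ≤ y := by positivity
  have hy4 : 4 ≤ y := by nlinarith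
  obtain ⟨c0, hc1, hc2⟩ := exists_nat_pow_near (by linarith : (1:ℝ) ≤ y) (by norm_num : (1:ℝ) < 2)
  have hc0 : 2 ≤ c0 := by
    by_contra h
    have : (2:ℝ) ^ (c0 + 1) ≤ 2 ^ 2 := pow_le_pow_right₀ (by norm_num) (by omega)
    linarith
  -- choose c of the right parity
  obtain ⟨c, hcpos, hcle, hclt, hpar⟩ : ∃ c : ℕ, 1 ≤ c ∧ (2:ℝ) ^ c ≤ y ∧ y < 2 ^ (c + 2) ∧
      (n + c) % 2 = 0 := by
    by_cases h : (n + c0) % 2 = 0
    · refine ⟨c0, by omega, hc1, lt_trans hc2 ?_, h⟩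
      exact pow_lt_pow_right₀ (by norm_num) (by omega)
    · refine ⟨c0 - 1, by omega, le_trans ?_ hc1, ?_, by omega⟩
      · exact pow_le_pow_right₀ (by norm_num) (by omega)
      · have : c0 - 1 + 2 = c0 + 1 := by omega
        rw [this]; exact hc2
  have hcn : (c:ℝ) ≤ n / 3 := by
    have h1 : (c:ℝ) ≤ 2 ^ c := by
      have : c ≤ 2 ^ c := Nat.lt_two_pow_self.le
      exact_mod_cast this
    have h2 : y ≤ n / 3 := by nlinarith
    linarith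
  have hcn' : 3 * c ≤ n := by
    have : (3:ℝ) * c ≤ n := by linarith
    exact_mod_cast this
  set m : ℕ := (n - c) / 2 with hm
  have hnm : n = 2 * m + c := by omega
  have hm3 : n ≤ 3 * m := by omega
  have hK : (36:ℝ) * (2 ^ c) ^ 2 * Real.log n ≤ n := by
    have h1 : ((2:ℝ) ^ c) ^ 2 ≤ y ^ 2 := pow_le_pow_left₀ (by positivity) hcle 2
    have h2 : q * Real.log n = n := by rw [hq]; field_simp
    calc (36:ℝ) * (2 ^ c) ^ 2 * Real.log n ≤ 36 * y ^ 2 * Real.log n := by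
          refine mul_le_mul_of_nonneg_right ?_ hlpos.le
          linarith
      _ = (n:ℝ) := by rw [hy36, h2]
  obtain ⟨A, hA1, hA2, hA3⟩ := for_n n m c hnm hcpos hlog hK hm3
  refine ⟨A, hA1, hA2, ?_⟩
  have hA3' : (2:ℝ) ^ (m + c) ≤ 2 * A.card := by exact_mod_cast hA3
  -- 2^(m+c) = 2^(n/2) * sqrt (2^c)
  have e1 : (2:ℝ) ^ (m + c) = (2:ℝ) ^ ((n:ℝ) / 2) * Real.sqrt (2 ^ c) := by
    rw [Real.sqrt_eq_rpow, ← Real.rpow_natCast, ← Real.rpow_natCast, ← Real.rpow_mul (by norm_num),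
      ← Real.rpow_add (by norm_num)]
    congr 1
    have : (n:ℝ) = 2 * m + c := by exact_mod_cast hnm
    rw [this]; push_cast; ring
  have e2 : q ^ (1/4 : ℝ) = Real.sqrt (6 * y) := by
    have h1 : 6 * y = Real.sqrt q := by rw [hy]; ring
    rw [h1, Real.sqrt_eq_rpow, Real.sqrt_eq_rpow, ← Real.rpow_mul hqpos.le]
    norm_num
  have e3 : 1 / 10 * Real.sqrt (6 * y) ≤ 1 / 2 * Real.sqrt (2 ^ c) := by
    have h1 : y / 4 ≤ 2 ^ c := by
      have : (2:ℝ) ^ (c + 2) = 2 ^ c * 4 := by rw [pow_add]; norm_num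
      rw [this] at hclt; linarith
    have h2 : 1 / 10 * Real.sqrt (6 * y) = Real.sqrt (6 / 100 * y) := by
      rw [show (6 / 100 * y : ℝ) = (1/10) ^ 2 * (6 * y) by ring,
        Real.sqrt_mul (by positivity : (0:ℝ) ≤ (1/10) ^ 2) (6 * y),
        Real.sqrt_sq (by norm_num : (0:ℝ) ≤ 1/10)]
    have h3 : 1 / 2 * Real.sqrt (2 ^ c) = Real.sqrt (1 / 4 * 2 ^ c) := by
      rw [show (1 / 4 * 2 ^ c : ℝ) = (1/2) ^ 2 * (2 ^ c) by ring,
        Real.sqrt_mul (by positivity : (0:ℝ) ≤ (1/2) ^ 2) ((2:ℝ) ^ c),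
        Real.sqrt_sq (by norm_num : (0:ℝ) ≤ 1/2)]
    rw [h2, h3]
    apply Real.sqrt_le_sqrt
    linarith
  rw [e2]
  have hpow : (0:ℝ) ≤ (2:ℝ) ^ ((n:ℝ) / 2) := by positivity
  calc 1 / 10 * Real.sqrt (6 * y) * (2:ℝ) ^ ((n:ℝ) / 2)
      ≤ 1 / 2 * Real.sqrt (2 ^ c) * (2:ℝ) ^ ((n:ℝ) / 2) := mul_le_mul_of_nonneg_right e3 hpow
    _ = 1 / 2 * (2:ℝ) ^ (m + c) := by rw [e1]; ring
    _ ≤ A.card := by linarith

end Pool.Agent.Helper34_Sidon
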