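import Pool.Agent.Helper34_Sidon.Alg

/-! The Sidon property of the set of good points. -/

namespace Pool.Agent.Helper34_Sidon

open Finset

variable {ι κ F : Type*} [Fintype ι] [DecidableEq ι] [Fintype κ] [DecidableEq κ] [Field F]

/-- the second component of the point attached to `S` -/
noncomputable def av (ω p : ι → F) (φ : F ≃+ (κ → ZMod 2)) (S : Finset ι) : κ → ZMod 2 :=
  φ (qf ω S + lin p S)

/-- the support of a binary word -/
def supp (a : κ → ZMod 2) : Finset κ := Finset.univ.filter (fun j => a j ≠ 0)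

/-- the point of the cube attached to `S` -/
noncomputable def vec (ω p : ι → F) (φ : F ≃+ (κ → ZMod 2)) (S : Finset ι) : ι ⊕ κ → ℤ :=
  Sum.elim (fun i => if i ∈ S then 1 else 0) (fun j => if av ω p φ S j = 0 then 0 else 1)

/-- `S` is in conflict with something in direction `ν` -/
def Conf (ω p : ι → F) (φ : F ≃+ (κ → ZMod 2)) (S ν : Finset ι) : Prop :=
  ∃ S' : Finset ι, ν ⊂ symmDiff S S' ∧
    supp (av ω p φ S + av ω p φ (symmDiff S ν)) ⊆ supp (av ω p φ S + av ω p φ S')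

theorem zmod2_cases (x : ZMod 2) : x = 0 ∨ x = 1 := by
  revert x; decide

theorem zmod2_sum {a b c d : ZMod 2}
    (h : (if a = 0 then (0:ℤ) else 1) + (if b = 0 then 0 else 1) =
      (if c = 0 then 0 else 1) + (if d = 0 then 0 else 1)) : a + b = c + d := by
  revert a b c d; decide

theorem zmod2_ne {a b c d : ZMod 2}
    (h : (if a = 0 then (0:ℤ) else 1) + (if b = 0 then 0 else 1) =
      (if c = 0 then 0 else 1) + (if d = 0 then 0 else 1)) (h2 : a + c ≠ 0) : a + b ≠ 0 := by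
  revert a b c d; decide

theorem vec_union_inter (ω p : ι → F) (φ : F ≃+ (κ → ZMod 2)) {S1 S2 S3 S4 : Finset ι}
    (h : vec ω p φ S1 + vec ω p φ S2 = vec ω p φ S3 + vec ω p φ S4) :
    S1 ∪ S2 = S3 ∪ S4 ∧ S1 ∩ S2 = S3 ∩ S4 := by
  have h1 : ∀ i, (if i ∈ S1 then (1:ℤ) else 0) + (if i ∈ S2 then 1 else 0) =
      (if i ∈ S3 then 1 else 0) + (if i ∈ S4 then 1 else 0) := by
    intro i
    have := congrFun h (Sum.inl i)
    simpa [vec] using this
  constructor
  · ext i
    have := h1 i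
    simp only [Finset.mem_union]
    by_cases a1 : i ∈ S1 <;> by_cases a2 : i ∈ S2 <;> by_cases a3 : i ∈ S3 <;>
      by_cases a4 : i ∈ S4 <;> simp_all
  · ext i
    have := h1 i
    simp only [Finset.mem_inter]
    by_cases a1 : i ∈ S1 <;> by_cases a2 : i ∈ S2 <;> by_cases a3 : i ∈ S3 <;>
      by_cases a4 : i ∈ S4 <;> simp_all

theorem vec_av (ω p : ι → F) (φ : F ≃+ (κ → ZMod 2)) {S1 S2 S3 S4 : Finset ι}
    (h : vec ω p φ S1 + vec ω p φ S2 = vec ω p φ S3 + vec ω p φ S4) (j : κ) :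
    (if av ω p φ S1 j = 0 then (0:ℤ) else 1) + (if av ω p φ S2 j = 0 then 0 else 1) =
      (if av ω p φ S3 j = 0 then 0 else 1) + (if av ω p φ S4 j = 0 then 0 else 1) := by
  have := congrFun h (Sum.inr j)
  simpa [vec] using this

/-- one half of the Sidon property -/
theorem half (ω p : ι → F) (φ : F ≃+ (κ → ZMod 2)) [CharP F 2] {S1 S2 S3 S4 : Finset ι}
    (hgood : ∀ ν : Finset ι, ν.Nonempty → lin ω ν = 0 → ¬ Conf ω p φ S1 ν)
    (h : vec ω p φ S1 + vec ω p φ S2 = vec ω p φ S3 + vec ω p φ S4)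
    (h13 : lin ω S1 = lin ω S3) : (S1 = S3 ∧ S2 = S4) ∨ (S1 = S4 ∧ S2 = S3) := by
  obtain ⟨hu, hi⟩ := vec_union_inter ω p φ h
  have hmem : ∀ i, (i ∈ S1 ∨ i ∈ S2 ↔ i ∈ S3 ∨ i ∈ S4) ∧ (i ∈ S1 ∧ i ∈ S2 ↔ i ∈ S3 ∧ i ∈ S4) := by
    intro i
    constructor
    · have := congrArg (fun s => i ∈ s) hu
      simpa using this
    · have := congrArg (fun s => i ∈ s) hi
      simpa using this
  by_cases e13 : S1 = S3
  · left
    refine ⟨e13, ?_⟩
    ext i
    have := hmem i
    rw [e13] at this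
    tauto
  by_cases e23 : S2 = S3
  · right
    refine ⟨?_, e23⟩
    ext i
    have := hmem i
    rw [e23] at this
    tauto
  exfalso
  have hne : (symmDiff S1 S3).Nonempty := by
    rw [Finset.nonempty_iff_ne_empty]
    intro h0
    exact e13 (symmDiff_eq_bot.mp h0)
  refine hgood (symmDiff S1 S3) hne ?_ ⟨S2, ?_, ?_⟩
  · rw [lin_symmDiff, h13]; exact CharTwo.add_self_eq_zero _
  · rw [Finset.ssubset_iff_subset_ne]
    constructor
    · intro i hi'
      have := hmem i
      simp only [Finset.mem_symmDiff] at *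
      tauto
    · intro h0
      apply e23
      have h1 : symmDiff S1 (symmDiff S1 S3) = symmDiff S1 (symmDiff S1 S2) := by rw [h0]
      rw [symmDiff_symmDiff_cancel_left, symmDiff_symmDiff_cancel_left] at h1
      exact h1.symm
  · rw [symmDiff_symmDiff_cancel_left]
    intro j hj
    simp only [supp, Finset.mem_filter, Finset.mem_univ, true_and, Pi.add_apply] at *
    exact zmod2_ne (vec_av ω p φ h j) hj

theorem vec_sidon (ω p : ι → F) (φ : F ≃+ (κ → ZMod 2)) [CharP F 2] {S1 S2 S3 S4 : Finset ι}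
    (hgood : ∀ ν : Finset ι, ν.Nonempty → lin ω ν = 0 → ¬ Conf ω p φ S1 ν)
    (h : vec ω p φ S1 + vec ω p φ S2 = vec ω p φ S3 + vec ω p φ S4) :
    (S1 = S3 ∧ S2 = S4) ∨ (S1 = S4 ∧ S2 = S3) := by
  obtain ⟨hu, hi⟩ := vec_union_inter ω p φ h
  have hq : (qf ω S1 + lin p S1) + (qf ω S2 + lin p S2) =
      (qf ω S3 + lin p S3) + (qf ω S4 + lin p S4) := by
    apply φ.injective
    rw [map_add, map_add φ (qf ω S3 + lin p S3)]
    funext j
    exact zmod2_sum (vec_av ω p φ h j)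
  rcases lin_pair ω p hu hi hq with ⟨h1, _⟩ | ⟨h1, _⟩
  · exact half ω p φ hgood h h1
  · have h' : vec ω p φ S1 + vec ω p φ S2 = vec ω p φ S4 + vec ω p φ S3 := by
      rw [h, add_comm]
    rcases half ω p φ hgood h' h1 with h2 | h2
    · exact Or.inr h2
    · exact Or.inl h2

theorem vec_injective (ω p : ι → F) (φ : F ≃+ (κ → ZMod 2)) :
    Function.Injective (vec ω p φ) := by
  intro S T h
  ext i
  have := congrFun h (Sum.inl i)
  by_cases a : i ∈ S <;> by_cases b : i ∈ T <;> simp_all [vec]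

theorem vec_zero_one (ω p : ι → F) (φ : F ≃+ (κ → ZMod 2)) (S : Finset ι) (x : ι ⊕ κ) :
    vec ω p φ S x = 0 ∨ vec ω p φ S x = 1 := by
  rcases x with i | j
  · by_cases h : i ∈ S <;> simp [vec, h]
  · by_cases h : av ω p φ S j = 0 <;> simp [vec, h]

end Pool.Agent.Helper34_Sidon
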