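import Pool.Agent.Helper34_Sidon.Code

/-! Binomial tail and choice of the parameters. -/

namespace Pool.Agent.Helper34_Sidon

open Finset

theorem one_add_exp_neg_le (l : ℝ) : 1 + Real.exp (-l) ≤ 2 * Real.exp (-l / 2 + l ^ 2 / 8) := by
  have h := Real.cosh_le_exp_half_sq (l / 2)
  have h1 : 1 + Real.exp (-l) = 2 * (Real.exp (-l / 2) * Real.cosh (l / 2)) := by
    rw [Real.cosh_eq]
    have e1 : Real.exp (-l / 2) * Real.exp (l / 2) = 1 := by
      rw [← Real.exp_add]; simp [neg_div]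
    have e2 : Real.exp (-l / 2) * Real.exp (-(l / 2)) = Real.exp (-l) := by
      rw [← Real.exp_add]; congr 1; ring
    linear_combination -e1 - e2
  rw [h1, Real.exp_add]
  have e3 : (l / 2) ^ 2 / 2 = l ^ 2 / 8 := by ring
  rw [e3] at h
  have := mul_le_mul_of_nonneg_left h (Real.exp_pos (-l / 2)).le
  linarith

theorem low_le (m b : ℕ) (hm : 0 < m) (τ : ℝ) (hτ : 0 ≤ τ) (hb : (b : ℝ) ≤ m / 2 - τ) :
    (low (Fin m) b : ℝ) ≤ 2 ^ m * Real.exp (-(2 * τ ^ 2 / m)) := by
  have hm' : (0:ℝ) < m := by exact_mod_cast hm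
  set l : ℝ := 4 * τ / m with hl
  have hl0 : 0 ≤ l := by positivity
  have h1 : (low (Fin m) b : ℝ) ≤ ∑ s : Finset (Fin m), Real.exp (l * b) * Real.exp (-l) ^ s.card := by
    unfold low
    rw [Finset.card_filter]
    push_cast
    refine Finset.sum_le_sum (fun s _ => ?_)
    rw [← Real.exp_nat_mul, ← Real.exp_add]
    split_ifs with h
    · rw [← Real.exp_zero]
      apply Real.exp_le_exp.mpr
      have : (s.card : ℝ) ≤ b := by exact_mod_cast h.le
      nlinarith
    · exact (Real.exp_pos _).le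
  have h2 : ∑ s : Finset (Fin m), Real.exp (l * b) * Real.exp (-l) ^ s.card =
      Real.exp (l * b) * (1 + Real.exp (-l)) ^ m := by
    rw [← Finset.mul_sum]
    congr 1
    have h3 := Finset.sum_pow_mul_eq_add_pow (Real.exp (-l)) 1 (Finset.univ : Finset (Fin m))
    simp only [one_pow, mul_one, Finset.card_univ, Fintype.card_fin, Finset.powerset_univ] at h3
    rw [h3, add_comm]
  rw [h2] at h1
  refine le_trans h1 ?_
  have h4 : (1 + Real.exp (-l)) ^ m ≤ (2 * Real.exp (-l / 2 + l ^ 2 / 8)) ^ m :=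
    pow_le_pow_left₀ (by positivity) (one_add_exp_neg_le l) m
  calc Real.exp (l * b) * (1 + Real.exp (-l)) ^ m
      ≤ Real.exp (l * b) * (2 * Real.exp (-l / 2 + l ^ 2 / 8)) ^ m :=
        mul_le_mul_of_nonneg_left h4 (Real.exp_pos _).le
    _ = 2 ^ m * Real.exp (l * b + m * (-l / 2 + l ^ 2 / 8)) := by
        rw [mul_pow, ← Real.exp_nat_mul, Real.exp_add]; ring
    _ ≤ 2 ^ m * Real.exp (-(2 * τ ^ 2 / m)) := by
        refine mul_le_mul_of_nonneg_left (Real.exp_le_exp.mpr ?_) (by positivity)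
        have h5 : l * b ≤ l * (m / 2 - τ) := mul_le_mul_of_nonneg_left hb hl0
        have h6 : l * (m / 2 - τ) + m * (-l / 2 + l ^ 2 / 8) = -(2 * τ ^ 2 / m) := by
          rw [hl]; field_simp; ring
        linarith

end Pool.Agent.Helper34_Sidon
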